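import Pool.Agent.U196.SO.Stm2

/-!
# Project SL, package LHR: Lindelof's bound right of the line
-/

set_option autoImplicit false

open Complex Set Filter Topology

namespace Pool.Agent.U44.SL

open Pool.Agent.U575.MU DH31

theorem t_LHR : Pool.Agent.U196.SO.S_LHR := by
  intro h ε hε
  obtain ⟨A, hA⟩ : ∃ A : ℝ, A = 40 / ε := ⟨_, rfl⟩
  have hA0 : 0 < A := by rw [hA]; positivity
  obtain ⟨T₁, hT₁⟩ := LH_local h (ε / 2) A (by positivity) hA0
  obtain ⟨A', hA'1, hA'⟩ := zeta_bounds (a := 3) (by norm_num)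
  refine ⟨max (max T₁ (A + 40)) (Real.exp (Real.log A' / (ε / 2))), fun T hT x hx1 hx2 => ?_⟩
  have hTa : T₁ ≤ T := ((le_max_left _ _).trans (le_max_left _ _)).trans hT
  have hTb : A + 40 ≤ T := ((le_max_right _ _).trans (le_max_left _ _)).trans hT
  have hTc : Real.exp (Real.log A' / (ε / 2)) ≤ T := (le_max_right _ _).trans hT
  have hT0 : 0 < T := by linarith
  have hc : A' ≤ Real.exp (ε / 2 * Real.log T) := const_le (by positivity) (by linarith) hTc
  have hl : 0 ≤ Real.log T := Real.log_nonneg (by linarith)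
  have hp : T ^ (ε / 2) = Real.exp (ε / 2 * Real.log T) := by
    rw [Real.rpow_def_of_pos hT0, mul_comm]
  have him : ∀ s ∈ Box (1 / 2) 3 T A, 1 ≤ s.im ∧ s.im ≤ T + A := by
    rintro s ⟨-, -, h3⟩
    have h4 := abs_le.1 h3
    exact ⟨by linarith [h4.1], by linarith [h4.2]⟩
  have key : ‖riemannZeta ⟨x, T⟩‖ ≤ Real.exp (ε / 2 * Real.log T +
      2 / Real.cosh (A / (3 - 1 / 2)) * (2 * Real.log T)) := by
    refine local_max (f := riemannZeta) (a := 1 / 2) (b := 3) (T := T) (A := A)
      (by norm_num) hA0 (by positivity) (by positivity)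
      (fun s hs => zeta_analyticAt (by linarith [(him s hs).1])) ?_ ?_ ?_ (s := ⟨x, T⟩) ?_
    · intro s hs
      have h1 := him s hs
      obtain ⟨h2, h3, h4⟩ := hs
      refine (Pool.Agent.H388LH.zeta_growth (by linarith) h1.1).trans ?_
      have h6 : ‖s‖ ≤ 2 * T := by
        refine (Complex.norm_le_abs_re_add_abs_im s).trans ?_
        rw [abs_of_nonneg (by linarith : 0 ≤ s.re), abs_of_nonneg (by linarith : 0 ≤ s.im)]
        linarith [h1.2]
      have h7 : Real.exp (2 * Real.log T) = T ^ 2 := by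
        rw [two_mul, Real.exp_add, Real.exp_log hT0]; ring
      rw [h7]
      nlinarith
    · intro s hs h1
      have e : s = 1 / 2 + (s.im : ℝ) * I := by
        apply Complex.ext
        · rw [h1]
          simp
        · simp
      rw [e, ← hp]
      exact hT₁ T hTa s.im hs.2.2
    · intro s hs h1
      exact (hA' s (by rw [h1])).1.trans hc
    · refine ⟨hx1, by show x ≤ 3; linarith, ?_⟩
      show |T - T| ≤ A / 2
      rw [sub_self, abs_zero]
      positivity
  have hκ : 2 / Real.cosh (A / (3 - 1 / 2)) ≤ ε / 8 := by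
    apply kappa_small (by norm_num) (by positivity)
    rw [hA]
    apply le_of_eq
    field_simp
    norm_num
  refine key.trans ?_
  rw [Real.rpow_def_of_pos hT0]
  apply Real.exp_le_exp.2
  have h1 : 2 / Real.cosh (A / (3 - 1 / 2)) * (2 * Real.log T) ≤ ε / 8 * (2 * Real.log T) :=
    mul_le_mul_of_nonneg_right hκ (by positivity)
  have h2 : 0 ≤ ε * Real.log T := by positivity
  linarith

end Pool.Agent.U44.SL
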